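import Mathlib
import Pool.Agent.helper35.DR.SpecP

/-!
# Project dr (MP_baa4d7_al): PMP, image and kernel of the fibre square
-/

set_option autoImplicit false

namespace Pool.Agent.DR

open Pool.Agent.helper58.DC Pool.Agent.DI

theorem PMP_proj {G E A : Type} [Group G] [Group E] [Group A] (X : Extension G E A)
    (e : KE X (diag A)) : (X2 X).proj e = e.l := rfl

theorem PMP_h {G E A : Type} [Group G] [Group E] [Group A] (X : Extension G E A)
    (e : KE X (diag A)) (t : TT) : X.proj (e.f t) = e.l := e.h t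

theorem PMP_mem {G E A : Type} [Group G] [Group E] [Group A] (X : Extension G E A)
    (S : TT → Subgroup E) (e : KE X (diag A)) : e ∈ prS X S ↔ ∀ t, e.f t ∈ S t := Iff.rfl

theorem PMP_all (P : TT → Prop) : (∀ t, P t) ↔ P t₀ ∧ P t₁ := by
  constructor
  · exact fun h => ⟨h _, h _⟩
  · rintro ⟨h0, h1⟩ t
    rcases (show ∀ b : Bool, b = false ∨ b = true by decide) t with h | h
    · rw [h]; exact h0
    · rw [h]; exact h1

theorem PMP_ne : t₁ ≠ t₀ := by
  intro h
  exact Bool.noConfusion (show true = false from h)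

theorem PMP_two0 {α : Type} (a b : α) : two a b t₀ = a := by simp [two]
theorem PMP_two1 {α : Type} (a b : α) : two a b t₁ = b := by simp [two, PMP_ne]

theorem PMP : PMP_stmt := by
  intro G E A _ _ _ _ _ X S
  refine ⟨?_, ?_, ?_⟩
  · ext l
    simp only [Subgroup.mem_map, Subgroup.mem_inf]
    constructor
    · rintro ⟨e, he, rfl⟩
      exact ⟨⟨e.f t₀, he t₀, e.h t₀⟩, ⟨e.f t₁, he t₁, e.h t₁⟩⟩
    · rintro ⟨⟨a, ha, hal⟩, ⟨b, hb, hbl⟩⟩
      have hh : ∀ t : TT, X.proj (two a b t) = (diag A).κ l t := by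
        rw [PMP_all]
        rw [PMP_two0, PMP_two1]
        exact ⟨hal, hbl⟩
      refine ⟨⟨l, two a b, hh⟩, ?_, rfl⟩
      rw [PMP_mem, PMP_all]
      refine ⟨?_, ?_⟩
      · show two a b t₀ ∈ S t₀
        rw [PMP_two0]
        exact ha
      · show two a b t₁ ∈ S t₁
        rw [PMP_two1]
        exact hb
  · rw [← Nat.card_prod]
    refine Nat.card_congr ⟨fun e => (⟨e.1.f t₀, ?_⟩, ⟨e.1.f t₁, ?_⟩), fun x => ⟨⟨1, two x.1.1 x.2.1, ?_⟩, ?_⟩,
      ?_, ?_⟩
    · refine ⟨e.2.1 t₀, ?_⟩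
      show X.proj (e.1.f t₀) = 1
      rw [PMP_h]
      exact e.2.2
    · refine ⟨e.2.1 t₁, ?_⟩
      show X.proj (e.1.f t₁) = 1
      rw [PMP_h]
      exact e.2.2
    · rw [PMP_all, PMP_two0, PMP_two1]
      exact ⟨x.1.2.2, x.2.2.2⟩
    · refine ⟨?_, rfl⟩
      show (_ : KE X (diag A)) ∈ prS X S
      rw [PMP_mem, PMP_all]
      refine ⟨?_, ?_⟩
      · show two (x.1.1 : E) (x.2.1 : E) t₀ ∈ S t₀
        rw [PMP_two0]
        exact x.1.2.1
      · show two (x.1.1 : E) (x.2.1 : E) t₁ ∈ S t₁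
        rw [PMP_two1]
        exact x.2.2.1
    · intro e
      apply Subtype.ext
      apply KE.ext
      · exact (show e.1.l = 1 from e.2.2).symm
      · funext t
        revert t
        rw [PMP_all]
        exact ⟨PMP_two0 (e.1.f t₀) (e.1.f t₁), PMP_two1 (e.1.f t₀) (e.1.f t₁)⟩
    · rintro ⟨a, b⟩
      apply Prod.ext
      · apply Subtype.ext
        exact PMP_two0 (a.1 : E) (b.1 : E)
      · apply Subtype.ext
        exact PMP_two1 (a.1 : E) (b.1 : E)
  · have : Finite TT := inferInstance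
    refine Finite.of_injective (fun e : KE X (diag A) => e.f) ?_
    intro e e' h
    apply KE.ext
    · rw [← PMP_h X e t₀, ← PMP_h X e' t₀]
      exact congrArg X.proj (congrFun h t₀)
    · exact h

end Pool.Agent.DR
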